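import Mathlib

/-!
# MP_0aa9c3_an: iterate differences of nonexpansive maps of the real line converge

Let `T : ℝ → ℝ` be nonexpansive and let `v`, the point of smallest absolute value of the closure of
the range of `Id - T`, be nonzero.  Then `T^n x - T^n y` converges for all `x, y`, whether or not
the generalized fixed point set of `v + T` is empty.

Proof: `g = Id - T` is nondecreasing, and `g ≥ |v|` everywhere (or `g ≤ -|v|` everywhere, which is
the mirror case).  So all orbits tend to `-∞`, and `g` tends to its infimum along all of them; hence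
consecutive terms of `d_n = T^n x - T^n y` differ by a null sequence.  As `|d_n|` decreases, either
it tends to `0` or `d_n` finally has a constant sign.
-/

set_option autoImplicit false

open Filter Topology

namespace Pool.Agent.Results.MP_0aa9c3_an.DifferencesConverge

/-- `v` is the metric projection of `0` onto the closure of the range of `Id - T`: a point of
this closure of smallest absolute value. -/
def IsMinDisplacement (T : ℝ → ℝ) (v : ℝ) : Prop :=
  v ∈ closure (Set.range fun x : ℝ => x - T x) ∧
    ∀ w ∈ closure (Set.range fun x : ℝ => x - T x), |v| ≤ |w|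

lemma core (T : ℝ → ℝ) (hT : ∀ x y, |T x - T y| ≤ |x - y|) (c : ℝ) (hc : 0 < c)
    (h : ∀ x, c ≤ x - T x) (x y : ℝ) :
    ∃ l : ℝ, Tendsto (fun n : ℕ => T^[n] x - T^[n] y) atTop (𝓝 l) := by
  set g : ℝ → ℝ := fun x => x - T x with hg
  have hmono : Monotone g := by
    intro s t hst
    have h1 := (le_abs_self _).trans (hT t s)
    rw [abs_of_nonneg (sub_nonneg.2 hst)] at h1
    simp only [hg]
    linarith
  have hbdd : BddBelow (Set.range g) := ⟨c, by rintro _ ⟨x, rfl⟩; exact h x⟩
  have hlim := tendsto_atBot_ciInf hmono hbdd
  have hle : ∀ (x : ℝ) (n : ℕ), T^[n] x ≤ x - n * c := by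
    intro x n
    induction n with
    | zero => simp
    | succ n ih =>
      rw [Function.iterate_succ_apply']
      have := h (T^[n] x)
      push_cast
      linarith
  have horb : ∀ x : ℝ, Tendsto (fun n : ℕ => T^[n] x) atTop atBot := by
    intro x
    refine tendsto_atBot_mono (hle x) ?_
    have h1 : Tendsto (fun n : ℕ => (n : ℝ) * c) atTop atTop :=
      tendsto_natCast_atTop_atTop.atTop_mul_const hc
    exact tendsto_atBot_add_const_left _ x (tendsto_neg_atTop_atBot.comp h1)
  set d : ℕ → ℝ := fun n => T^[n] x - T^[n] y with hd
  have hstep : Tendsto (fun n => d n - d (n + 1)) atTop (𝓝 0) := by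
    have h1 := (hlim.comp (horb x)).sub (hlim.comp (horb y))
    rw [sub_self] at h1
    refine h1.congr fun n => ?_
    simp only [hd, hg, Function.comp_apply, Function.iterate_succ_apply']
    ring
  have hanti : Antitone fun n => |d n| := by
    refine antitone_nat_of_succ_le fun n => ?_
    simp only [hd, Function.iterate_succ_apply']
    exact hT _ _
  have hb : BddBelow (Set.range fun n => |d n|) := ⟨0, by rintro _ ⟨n, rfl⟩; exact abs_nonneg _⟩
  have habs := tendsto_atTop_ciInf hanti hb
  set D : ℝ := ⨅ n, |d n| with hD
  have hDle : ∀ n, D ≤ |d n| := fun n => ciInf_le hb n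
  have hD0 : 0 ≤ D := le_ciInf fun n => abs_nonneg _
  rcases hD0.eq_or_lt with h0 | h0
  · refine ⟨0, ?_⟩
    rw [← h0] at habs
    exact (tendsto_zero_iff_abs_tendsto_zero _).2 habs
  · have hev : ∀ᶠ n in atTop, |d n - d (n + 1)| < D := by
      have := (tendsto_zero_iff_abs_tendsto_zero _).1 hstep
      exact this.eventually (gt_mem_nhds h0)
    obtain ⟨N, hN⟩ := eventually_atTop.1 hev
    rcases le_total 0 (d N) with hs | hs
    · have hpos : ∀ n, N ≤ n → 0 ≤ d n := by
        intro n hn
        induction n, hn using Nat.le_induction with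
        | base => exact hs
        | succ n hn ih =>
          have h1 := hN n hn
          have h2 := hDle n
          rw [abs_of_nonneg ih] at h2
          have := (abs_lt.1 h1).2
          linarith
      refine ⟨D, habs.congr' ?_⟩
      filter_upwards [eventually_ge_atTop N] with n hn
      exact abs_of_nonneg (hpos n hn)
    · have hneg : ∀ n, N ≤ n → d n ≤ 0 := by
        intro n hn
        induction n, hn using Nat.le_induction with
        | base => exact hs
        | succ n hn ih =>
          have h1 := hN n hn
          have h2 := hDle n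
          rw [abs_of_nonpos ih] at h2
          have := (abs_lt.1 h1).1
          linarith
      refine ⟨-D, habs.neg.congr' ?_⟩
      filter_upwards [eventually_ge_atTop N] with n hn
      rw [abs_of_nonpos (hneg n hn), neg_neg]

/-- **Iterate differences converge.**  Let `T : ℝ → ℝ` be nonexpansive with nonzero minimal
displacement `v`.  Then `T^n x - T^n y` converges for all `x, y`; no assumption on the
generalized fixed point set of `v + T` is needed. -/
theorem result (T : ℝ → ℝ) (hT : ∀ x y, |T x - T y| ≤ |x - y|) (v : ℝ)
    (hv : IsMinDisplacement T v) (hv0 : v ≠ 0) (x y : ℝ) :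
    ∃ l : ℝ, Tendsto (fun n : ℕ => T^[n] x - T^[n] y) atTop (𝓝 l) := by
  have hvp : 0 < |v| := abs_pos.2 hv0
  have hge : ∀ x, |v| ≤ |x - T x| := fun x => hv.2 _ (subset_closure ⟨x, rfl⟩)
  have hcont : Continuous T := by
    have : LipschitzWith 1 T := LipschitzWith.of_dist_le_mul fun x y => by
      simpa [Real.dist_eq] using hT x y
    exact this.continuous
  have hconn : IsPreconnected (Set.range fun x : ℝ => x - T x) :=
    isPreconnected_range (continuous_id.sub hcont)
  by_cases hpos : ∃ x, 0 < x - T x
  · obtain ⟨x₀, hx₀⟩ := hpos
    have hall : ∀ x, |v| ≤ x - T x := by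
      intro x
      rcases le_abs.1 (hge x) with h1 | h1
      · exact h1
      · exfalso
        have h2 : (0 : ℝ) ∈ Set.range fun x : ℝ => x - T x :=
          hconn.Icc_subset ⟨x, rfl⟩ ⟨x₀, rfl⟩ ⟨by linarith, hx₀.le⟩
        obtain ⟨z, hz⟩ := h2
        have h3 := hge z
        simp only at hz
        rw [hz, abs_zero] at h3
        linarith
    exact core T hT |v| hvp hall x y
  · push Not at hpos
    have hall : ∀ x, |v| ≤ -(x - T x) := by
      intro x
      rw [← abs_of_nonpos (hpos x)]
      exact hge x
    have hS : ∀ x y, |(fun t => -T (-t)) x - (fun t => -T (-t)) y| ≤ |x - y| := by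
      intro x y
      have h1 := hT (-y) (-x)
      simp only
      calc |-T (-x) - -T (-y)| = |T (-y) - T (-x)| := by congr 1; ring
        _ ≤ |-y - -x| := h1
        _ = |x - y| := by congr 1; ring
    have hiter : ∀ (n : ℕ) (x : ℝ), (fun t => -T (-t))^[n] (-x) = -T^[n] x := by
      intro n x
      induction n with
      | zero => rfl
      | succ n ih => rw [Function.iterate_succ_apply', Function.iterate_succ_apply', ih, neg_neg]
    obtain ⟨l, hl⟩ := core (fun t => -T (-t)) hS |v| hvp (fun x => by
      have := hall (-x)
      linarith) (-x) (-y)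
    refine ⟨-l, ?_⟩
    refine hl.neg.congr fun n => ?_
    rw [hiter, hiter]
    ring

end Pool.Agent.Results.MP_0aa9c3_an.DifferencesConverge
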